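import Mathlib

/-!
# An open RIG that is a CRVG but not an RVG

The join of two paths with 11 vertices is an open rectangle-of-influence graph and a corner
rectangle visibility graph, but not a rectangle visibility graph.
-/

set_option autoImplicit false

open Set

namespace Pool.Agent.Results.MP_78e958_co.NotRVG

/-! ### Definitions -/

/-- The closed axis-parallel rectangles `[x0, x1] × [y0, y1]` of positive width and height. -/
structure Rect where
  x0 : ℝ
  x1 : ℝ
  y0 : ℝ
  y1 : ℝ
  hx : x0 < x1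
  hy : y0 < y1

/-- The rectangle as a set of points. -/
def Rect.set (A : Rect) : Set (ℝ × ℝ) := {z | (A.x0 ≤ z.1 ∧ z.1 ≤ A.x1) ∧ A.y0 ≤ z.2 ∧ z.2 ≤ A.y1}

/-- The corner of `A`: on the right side if `c.1`, else on the left side; on the upper side if
`c.2`, else on the lower side. -/
def Rect.corner (A : Rect) (c : Bool × Bool) : ℝ × ℝ :=
  (if c.1 then A.x1 else A.x0, if c.2 then A.y1 else A.y0)

variable {V : Type}

/-- The members of the family are pairwise disjoint. -/
def PairwiseDisj (R : V → Rect) : Prop := ∀ u v, u ≠ v → Disjoint (R u).set (R v).set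

/-- Some vertical band (a non-degenerate rectangle `Q` whose lower side lies in `A` and whose
upper side lies in `B`) meets no member of the family other than `A = R u` and `B = R v`. -/
def VerticalBand (R : V → Rect) (u v : V) : Prop :=
  ∃ Q : Rect, (∀ x, Q.x0 ≤ x → x ≤ Q.x1 → (x, Q.y0) ∈ (R u).set ∧ (x, Q.y1) ∈ (R v).set) ∧
    ∀ w, w ≠ u → w ≠ v → Disjoint Q.set (R w).set

/-- Some horizontal band (a non-degenerate rectangle `Q` whose left side lies in `A` and whose
right side lies in `B`) meets no member of the family other than `A = R u` and `B = R v`. -/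
def HorizontalBand (R : V → Rect) (u v : V) : Prop :=
  ∃ Q : Rect, (∀ y, Q.y0 ≤ y → y ≤ Q.y1 → (Q.x0, y) ∈ (R u).set ∧ (Q.x1, y) ∈ (R v).set) ∧
    ∀ w, w ≠ u → w ≠ v → Disjoint Q.set (R w).set

/-- `G` is a rectangle visibility graph. -/
def IsRVG (G : SimpleGraph V) : Prop :=
  ∃ R : V → Rect, PairwiseDisj R ∧ ∀ u v, G.Adj u v ↔ u ≠ v ∧
    (VerticalBand R u v ∨ VerticalBand R v u ∨ HorizontalBand R u v ∨ HorizontalBand R v u)

/-- `G` is an open rectangle-of-influence graph. Here `uIcc A B` is the axis-parallel rectangle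
with `A` and `B` at opposite corners. -/
def IsOpenRIG (G : SimpleGraph V) : Prop :=
  ∃ P : V → ℝ × ℝ, Function.Injective P ∧
    ∀ u v, G.Adj u v ↔ u ≠ v ∧ ∀ w, P w ∉ interior (uIcc (P u) (P v))

/-- `A = R u` with the eye `e u` sees `B = R v`: there is a rectangle `Q = uIcc p q` of positive
width and height, `p` being the eye of `A` and the opposite corner `q` a boundary point of `B`,
with `Q ∩ A = {p}`, `Q ∩ B` in the boundary of `B`, and `Q` disjoint from the other members. -/
def Sees (R : V → Rect) (e : V → Bool × Bool) (u v : V) : Prop :=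
  ∃ q : ℝ × ℝ, q.1 ≠ ((R u).corner (e u)).1 ∧ q.2 ≠ ((R u).corner (e u)).2 ∧
    q ∈ frontier (R v).set ∧
    uIcc ((R u).corner (e u)) q ∩ (R u).set = {(R u).corner (e u)} ∧
    uIcc ((R u).corner (e u)) q ∩ (R v).set ⊆ frontier (R v).set ∧
    ∀ w, w ≠ u → w ≠ v → Disjoint (uIcc ((R u).corner (e u)) q) (R w).set

/-- `G` is a corner rectangle visibility graph. -/
def IsCRVG (G : SimpleGraph V) : Prop :=
  ∃ (R : V → Rect) (e : V → Bool × Bool), PairwiseDisj R ∧
    ∀ u v, G.Adj u v ↔ u ≠ v ∧ (Sees R e u v ∨ Sees R e v u)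

/-! ### The edge bound for rectangle visibility graphs -/

/-- Let each `i` be present at an interval of times, with heights that differ whenever two are
present at the same time. Then at most `3 n` pairs are ever vertically adjacent. -/
lemma bar_bound {ι : Type} [Fintype ι] (pres : ι → Set ℝ)
    (hpres : ∀ i, (pres i).OrdConnected) (h : ι → ℝ)
    (hne : ∀ i j x, i ≠ j → x ∈ pres i → x ∈ pres j → h i ≠ h j) (S : Finset (ι × ι))
    (hS : ∀ p ∈ S, h p.1 < h p.2 ∧ ∃ x, x ∈ pres p.1 ∧ x ∈ pres p.2 ∧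
      ∀ c, x ∈ pres c → ¬ (h p.1 < h c ∧ h c < h p.2)) :
    S.card ≤ 3 * Fintype.card ι := by
  classical
  rcases S.eq_empty_or_nonempty with rfl | ⟨p0, _⟩
  · simp
  have : Nonempty (Fin 3 × ι) := ⟨(0, p0.1)⟩
  -- consecutive at time `x`
  let vis : ι × ι → ℝ → Prop := fun p x => x ∈ pres p.1 ∧ x ∈ pres p.2 ∧
    ∀ c, x ∈ pres c → ¬ (h p.1 < h c ∧ h c < h p.2)
  have hS2 : ∀ p ∈ S, ∃ x, vis p x := fun p hp => (hS p hp).2
  choose! wit hwit using hS2
  set W : Finset ℝ := S.image wit with hW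
  -- the first witness
  have first : ∀ p ∈ S, ∃ x ∈ W, vis p x ∧ ∀ y ∈ W, vis p y → x ≤ y := by
    intro p hp
    obtain ⟨x, hx, hmin⟩ := (W.filter fun x => vis p x).exists_min_image id
      ⟨wit p, Finset.mem_filter.2 ⟨Finset.mem_image_of_mem _ hp, hwit p hp⟩⟩
    rw [Finset.mem_filter] at hx
    exact ⟨x, hx.1, hx.2, fun y hy hv => hmin y (Finset.mem_filter.2 ⟨hy, hv⟩)⟩
  choose! fx hfxW hfx hfmin using first
  -- uniqueness of neighbours
  have uniqUp : ∀ p p' x, h p.1 < h p.2 → h p'.1 < h p'.2 → vis p x → vis p' x → p.1 = p'.1 →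
      p = p' := by
    intro p p' x h1 h2 v v' e
    refine Prod.ext e ?_
    by_contra hne'
    rcases lt_or_gt_of_ne (hne _ _ x hne' v.2.1 v'.2.1) with h3 | h3
    · exact v'.2.2 p.2 v.2.1 ⟨by rw [← e]; exact h1, h3⟩
    · exact v.2.2 p'.2 v'.2.1 ⟨by rw [e]; exact h2, h3⟩
  have uniqDown : ∀ p p' x, h p.1 < h p.2 → h p'.1 < h p'.2 → vis p x → vis p' x → p.2 = p'.2 →
      p = p' := by
    intro p p' x h1 h2 v v' e
    refine Prod.ext ?_ e
    by_contra hne'
    rcases lt_or_gt_of_ne (hne _ _ x hne' v.1 v'.1) with h3 | h3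
    · exact v.2.2 p'.1 v'.1 ⟨h3, by rw [e]; exact h2⟩
    · exact v'.2.2 p.1 v.1 ⟨h3, by rw [← e]; exact h1⟩
  -- the charge
  have charge : ∀ p ∈ S, ∃ c : Fin 3 × ι,
      (c.1 = 0 ∧ c.2 = p.1 ∧ ∀ y ∈ W, y < fx p → y ∉ pres p.1) ∨
      (c.1 = 1 ∧ c.2 = p.2 ∧ ∀ y ∈ W, y < fx p → y ∉ pres p.2) ∨
      (c.1 = 2 ∧ ∃ y ∈ W, y < fx p ∧ (∀ z ∈ W, z < fx p → z ≤ y) ∧ y ∈ pres c.2 ∧
        fx p ∉ pres c.2 ∧ y ∈ pres p.1 ∧ y ∈ pres p.2 ∧ h p.1 < h c.2 ∧ h c.2 < h p.2) := by
    intro p hp
    by_cases h1 : ∀ y ∈ W, y < fx p → y ∉ pres p.1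
    · exact ⟨(0, p.1), Or.inl ⟨rfl, rfl, h1⟩⟩
    by_cases h2 : ∀ y ∈ W, y < fx p → y ∉ pres p.2
    · exact ⟨(1, p.2), Or.inr (Or.inl ⟨rfl, rfl, h2⟩)⟩
    push Not at h1 h2
    obtain ⟨y1, hy1, hy1', hy1''⟩ := h1
    obtain ⟨y2, hy2, hy2', hy2''⟩ := h2
    obtain ⟨y, hy, hmax⟩ := (W.filter fun x => x < fx p).exists_max_image id
      ⟨y1, Finset.mem_filter.2 ⟨hy1, hy1'⟩⟩
    rw [Finset.mem_filter] at hy
    have hmax' : ∀ z ∈ W, z < fx p → z ≤ y := fun z hz hz' =>
      hmax z (Finset.mem_filter.2 ⟨hz, hz'⟩)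
    have p1 : y ∈ pres p.1 := (hpres p.1).out hy1'' (hfx p hp).1 ⟨hmax' y1 hy1 hy1', hy.2.le⟩
    have p2 : y ∈ pres p.2 := (hpres p.2).out hy2'' (hfx p hp).2.1 ⟨hmax' y2 hy2 hy2', hy.2.le⟩
    have h3 : ¬ vis p y := fun hv => absurd (hfmin p hp y hy.1 hv) (not_le.2 hy.2)
    have h4 : ∃ c, y ∈ pres c ∧ h p.1 < h c ∧ h c < h p.2 := by
      by_contra hcon
      push Not at hcon
      exact h3 ⟨p1, p2, fun c hc hcc => absurd hcc.2 (not_lt.2 (hcon c hc hcc.1))⟩
    obtain ⟨c, hc, hc1, hc2⟩ := h4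
    refine ⟨(2, c), Or.inr (Or.inr ⟨rfl, y, hy.1, hy.2, hmax', hc, ?_, p1, p2, hc1, hc2⟩)⟩
    intro hcon
    exact (hfx p hp).2.2 c hcon ⟨hc1, hc2⟩
  choose! f hf using charge
  have hinj : Set.InjOn f (S : Set (ι × ι)) := by
    intro p hp p' hp' hff
    have hp : p ∈ S := hp
    have hp' : p' ∈ S := hp'
    have a := hf p hp
    have a' := hf p' hp'
    rw [← hff] at a'
    rcases a with ⟨a1, a2, a3⟩ | ⟨a1, a2, a3⟩ | ⟨a1, y, a2, a3, a4, a5, a6, a7, a8, a9, a10⟩ <;>
      rcases a' with ⟨b1, b2, b3⟩ | ⟨b1, b2, b3⟩ | ⟨b1, y', b2, b3, b4, b5, b6, b7, b8, b9, b10⟩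
    · have e : p.1 = p'.1 := a2.symm.trans b2
      have hx : fx p = fx p' := by
        rcases lt_trichotomy (fx p) (fx p') with h1 | h1 | h1
        · exact absurd (e ▸ (hfx p hp).1) (b3 _ (hfxW p hp) h1)
        · exact h1
        · exact absurd (e ▸ (hfx p' hp').1) (a3 _ (hfxW p' hp') h1)
      exact uniqUp p p' (fx p) (hS p hp).1 (hS p' hp').1 (hfx p hp) (hx ▸ hfx p' hp') e
    · rw [a1] at b1; exact absurd b1 (by decide)
    · rw [a1] at b1; exact absurd b1 (by decide)
    · rw [a1] at b1; exact absurd b1 (by decide)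
    · have e : p.2 = p'.2 := a2.symm.trans b2
      have hx : fx p = fx p' := by
        rcases lt_trichotomy (fx p) (fx p') with h1 | h1 | h1
        · exact absurd (e ▸ (hfx p hp).2.1) (b3 _ (hfxW p hp) h1)
        · exact h1
        · exact absurd (e ▸ (hfx p' hp').2.1) (a3 _ (hfxW p' hp') h1)
      exact uniqDown p p' (fx p) (hS p hp).1 (hS p' hp').1 (hfx p hp) (hx ▸ hfx p' hp') e
    · rw [a1] at b1; exact absurd b1 (by decide)
    · rw [a1] at b1; exact absurd b1 (by decide)
    · rw [a1] at b1; exact absurd b1 (by decide)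
    · -- both charged to the end of the same `c`
      have hyy : y = y' := by
        rcases lt_trichotomy y y' with h1 | h1 | h1
        · exfalso
          have h2 : fx p ≤ y' := by
            by_contra h3
            exact absurd (a4 y' b2 (not_le.1 h3)) (not_le.2 h1)
          exact a6 ((hpres _).out a5 b5 ⟨a3.le, h2⟩)
        · exact h1
        · exfalso
          have h2 : fx p' ≤ y := by
            by_contra h3
            exact absurd (b4 y a2 (not_le.1 h3)) (not_le.2 h1)
          exact b6 ((hpres _).out b5 a5 ⟨b3.le, h2⟩)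
      have hx : fx p = fx p' := by
        rcases lt_trichotomy (fx p) (fx p') with h1 | h1 | h1
        · exfalso
          have := b4 _ (hfxW p hp) h1
          rw [← hyy] at this
          exact absurd this (not_le.2 a3)
        · exact h1
        · exfalso
          have := a4 _ (hfxW p' hp') h1
          rw [hyy] at this
          exact absurd this (not_le.2 b3)
      have v := hfx p hp
      have v' := hfx p' hp'
      rw [← hx] at v'
      have e1 : p.1 = p'.1 := by
        by_contra hne'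
        rcases lt_or_gt_of_ne (hne _ _ _ hne' v.1 v'.1) with h1 | h1
        · exact v.2.2 p'.1 v'.1 ⟨h1, b9.trans a10⟩
        · exact v'.2.2 p.1 v.1 ⟨h1, a9.trans b10⟩
      exact uniqUp p p' (fx p) (hS p hp).1 (hS p' hp').1 v v' e1
  have h1 := Finset.card_le_card_of_injOn (t := (Finset.univ : Finset (Fin 3 × ι))) f
    (fun _ _ => Finset.mem_coe.2 (Finset.mem_univ _)) hinj
  rw [Finset.card_univ, Fintype.card_prod, Fintype.card_fin] at h1
  exact h1

open scoped Classical in
lemma vertical_bound [Fintype V] {R : V → Rect} (hR : PairwiseDisj R) :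
    (Finset.univ.filter fun p : V × V => p.1 ≠ p.2 ∧ VerticalBand R p.1 p.2).card ≤
      3 * Fintype.card V := by
  have hdis : ∀ i j x y, i ≠ j → (x, y) ∈ (R i).set → (x, y) ∈ (R j).set → False :=
    fun i j x y hij h1 h2 => Set.disjoint_left.1 (hR i j hij) h1 h2
  refine bar_bound (fun i => Icc (R i).x0 (R i).x1) (fun i => ordConnected_Icc)
    (fun i => (R i).y0) ?_ _ ?_
  · intro i j x hij hi hj h
    exact hdis i j x (R i).y0 hij ⟨hi, le_rfl, (R i).hy.le⟩ ⟨hj, h.symm.le, h.le.trans (R j).hy.le⟩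
  · rintro ⟨u, v⟩ hp
    rw [Finset.mem_filter] at hp
    obtain ⟨-, huv, Q, hQ1, hQ2⟩ := hp
    simp only at huv hQ1 hQ2
    have h0 := hQ1 Q.x0 le_rfl Q.hx.le
    obtain ⟨⟨hux, hu1, hu2⟩, ⟨hvx, hv1, hv2⟩⟩ := h0
    simp only at hux hu1 hu2 hvx hv1 hv2
    have hQy := Q.hy
    -- two rectangles present at `x` have disjoint ranges
    have sep : ∀ i j x, i ≠ j → x ∈ Icc (R i).x0 (R i).x1 → x ∈ Icc (R j).x0 (R j).x1 →
        (R i).y0 ≤ (R j).y0 → (R i).y1 < (R j).y0 := by
      intro i j x hij hi hj h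
      by_contra hcon
      exact hdis i j x (R j).y0 hij ⟨hi, h, not_lt.1 hcon⟩ ⟨hj, le_rfl, (R j).hy.le⟩
    have huv1 : (R u).y1 < (R v).y0 := by
      rcases le_total (R u).y0 (R v).y0 with h | h
      · exact sep u v _ huv hux hvx h
      · have := sep v u _ huv.symm hvx hux h
        linarith
    refine ⟨by linarith [(R u).hy], Q.x0, hux, hvx, ?_⟩
    intro c hc hcc
    simp only at hcc
    have hcu : c ≠ u := by rintro rfl; exact lt_irrefl _ hcc.1
    have hcv : c ≠ v := by rintro rfl; exact lt_irrefl _ hcc.2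
    have h1 := sep u c _ hcu.symm hux hc hcc.1.le
    have h2 := sep c v _ hcv hc hvx hcc.2.le
    have k1 : (Q.x0, (R c).y0) ∈ Q.set :=
      ⟨⟨le_rfl, Q.hx.le⟩, by simp only; linarith, by simp only; linarith⟩
    have k2 : (Q.x0, (R c).y0) ∈ (R c).set := ⟨hc, le_rfl, (R c).hy.le⟩
    exact Set.disjoint_left.1 (hQ2 c hcu hcv) k1 k2

/-- reflection in the diagonal -/
def Rect.swap (A : Rect) : Rect := ⟨A.y0, A.y1, A.x0, A.x1, A.hy, A.hx⟩

lemma Rect.mem_swap (A : Rect) (x y : ℝ) : (x, y) ∈ A.swap.set ↔ (y, x) ∈ A.set := by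
  constructor
  · rintro ⟨h1, h2⟩; exact ⟨h2, h1⟩
  · rintro ⟨h1, h2⟩; exact ⟨h2, h1⟩

lemma disjoint_swap {A B : Rect} (h : Disjoint A.set B.set) : Disjoint A.swap.set B.swap.set := by
  rw [Set.disjoint_left] at h ⊢
  rintro ⟨x, y⟩ h1 h2
  rw [Rect.mem_swap] at h1 h2
  exact h h1 h2

lemma horizontal_swap {R : V → Rect} {u v : V} (h : HorizontalBand R u v) :
    VerticalBand (fun w => (R w).swap) u v := by
  obtain ⟨Q, h1, h2⟩ := h
  refine ⟨Q.swap, ?_, fun w hw hw' => disjoint_swap (h2 w hw hw')⟩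
  intro x hx hx'
  rw [Rect.mem_swap, Rect.mem_swap]
  exact h1 x hx hx'

open scoped Classical in
lemma horizontal_bound [Fintype V] {R : V → Rect} (hR : PairwiseDisj R) :
    (Finset.univ.filter fun p : V × V => p.1 ≠ p.2 ∧ HorizontalBand R p.1 p.2).card ≤
      3 * Fintype.card V := by
  refine le_trans (Finset.card_le_card ?_)
    (vertical_bound (R := fun w => (R w).swap) fun u v huv => disjoint_swap (hR u v huv))
  intro p hp
  rw [Finset.mem_filter] at hp ⊢
  exact ⟨hp.1, hp.2.1, horizontal_swap hp.2.2⟩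

/-- A rectangle visibility graph with `n` vertices has at most `6 n` edges. -/
lemma rvg_bound [Fintype V] {G : SimpleGraph V} (hG : IsRVG G) (D : Finset (V × V))
    (hD : ∀ p ∈ D, G.Adj p.1 p.2) : D.card ≤ 12 * Fintype.card V := by
  classical
  obtain ⟨R, hR, h⟩ := hG
  set A := Finset.univ.filter fun p : V × V => p.1 ≠ p.2 ∧ VerticalBand R p.1 p.2 with hA
  set B := Finset.univ.filter fun p : V × V => p.1 ≠ p.2 ∧ HorizontalBand R p.1 p.2 with hB
  have hA' : A.card ≤ 3 * Fintype.card V := vertical_bound hR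
  have hB' : B.card ≤ 3 * Fintype.card V := horizontal_bound hR
  have hsub : D ⊆ (A ∪ A.image Prod.swap) ∪ (B ∪ B.image Prod.swap) := by
    rintro ⟨u, v⟩ hp
    obtain ⟨huv, h1⟩ := (h u v).1 (hD _ hp)
    simp only [Finset.mem_union, Finset.mem_image]
    rcases h1 with h1 | h1 | h1 | h1
    · left; left; rw [hA, Finset.mem_filter]; exact ⟨Finset.mem_univ _, huv, h1⟩
    · left; right; refine ⟨(v, u), ?_, rfl⟩
      rw [hA, Finset.mem_filter]; exact ⟨Finset.mem_univ _, huv.symm, h1⟩
    · right; left; rw [hB, Finset.mem_filter]; exact ⟨Finset.mem_univ _, huv, h1⟩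
    · right; right; refine ⟨(v, u), ?_, rfl⟩
      rw [hB, Finset.mem_filter]; exact ⟨Finset.mem_univ _, huv.symm, h1⟩
  have h1 := Finset.card_le_card hsub
  have h2 := Finset.card_union_le (A ∪ A.image Prod.swap) (B ∪ B.image Prod.swap)
  have h3 := Finset.card_union_le A (A.image Prod.swap)
  have h4 := Finset.card_union_le B (B.image Prod.swap)
  have h5 : (A.image Prod.swap).card ≤ A.card := Finset.card_image_le
  have h6 : (B.image Prod.swap).card ≤ B.card := Finset.card_image_le
  omega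

/-! ### The graph -/

/-- the adjacency relation of the join of two paths with `m` vertices -/
def padj (m : ℕ) : Fin m ⊕ Fin m → Fin m ⊕ Fin m → Prop
  | .inl i, .inl j => (i : ℕ) + 1 = j ∨ (j : ℕ) + 1 = i
  | .inr i, .inr j => (i : ℕ) + 1 = j ∨ (j : ℕ) + 1 = i
  | .inl _, .inr _ => True
  | .inr _, .inl _ => True

instance (m : ℕ) : DecidableRel (padj m) := by
  rintro (i | i) (j | j) <;> unfold padj <;> infer_instance

/-- the join of two paths with `m` vertices -/
def pathJoin (m : ℕ) : SimpleGraph (Fin m ⊕ Fin m) where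
  Adj := padj m
  symm := ⟨by
    rintro (i | i) (j | j) h
    · exact h.symm
    · trivial
    · trivial
    · exact h.symm⟩
  loopless := ⟨by
    rintro (i | i) (h | h) <;> omega⟩

lemma pathJoin_not_rvg : ¬ IsRVG (pathJoin 11) := by
  intro h
  have h1 := rvg_bound h (Finset.univ.filter fun p => padj 11 p.1 p.2) (fun p hp => by
    rw [Finset.mem_filter] at hp; exact hp.2)
  rw [Fintype.card_sum, Fintype.card_fin] at h1
  have h2 : (Finset.univ.filter fun p : (Fin 11 ⊕ Fin 11) × (Fin 11 ⊕ Fin 11) =>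
      padj 11 p.1 p.2).card = 282 := by
    decide +kernel
  omega

/-! ### It is an open rectangle-of-influence graph -/

/-- the points: two increasing chains, one to the upper left of the other -/
def pt (m : ℕ) : Fin m ⊕ Fin m → ℤ × ℤ
  | .inl i => (i, m + i)
  | .inr j => (m + j, j)

lemma mem_interior_uIcc (a b z : ℝ × ℝ) : z ∈ interior (uIcc a b) ↔
    (min a.1 b.1 < z.1 ∧ z.1 < max a.1 b.1) ∧ min a.2 b.2 < z.2 ∧ z.2 < max a.2 b.2 := by
  have h : uIcc a b = Icc (min a.1 b.1) (max a.1 b.1) ×ˢ Icc (min a.2 b.2) (max a.2 b.2) := by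
    ext w
    simp only [uIcc, Set.mem_Icc, Set.mem_prod, Prod.le_def, Prod.fst_inf, Prod.snd_inf,
      Prod.fst_sup, Prod.snd_sup]
    tauto
  rw [h, interior_prod_eq, interior_Icc, interior_Icc]
  rfl

lemma mem_uIcc_iff (a b z : ℝ × ℝ) : z ∈ uIcc a b ↔
    (min a.1 b.1 ≤ z.1 ∧ z.1 ≤ max a.1 b.1) ∧ min a.2 b.2 ≤ z.2 ∧ z.2 ≤ max a.2 b.2 := by
  simp only [uIcc, Set.mem_Icc, Prod.le_def, Prod.fst_inf, Prod.snd_inf, Prod.fst_sup,
    Prod.snd_sup]
  tauto

lemma open_cast (a b z : ℤ × ℤ) :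
    (((z.1 : ℝ), (z.2 : ℝ)) ∈ interior (uIcc ((a.1 : ℝ), (a.2 : ℝ)) ((b.1 : ℝ), (b.2 : ℝ)))) ↔
      (min a.1 b.1 < z.1 ∧ z.1 < max a.1 b.1) ∧ min a.2 b.2 < z.2 ∧ z.2 < max a.2 b.2 := by
  rw [mem_interior_uIcc]
  simp only
  norm_cast

lemma pathJoin_rig (m : ℕ) : IsOpenRIG (pathJoin m) := by
  refine ⟨fun v => (((pt m v).1 : ℝ), ((pt m v).2 : ℝ)), ?_, ?_⟩
  · rintro (i | i) (j | j) h
    · simp [pt] at h; exact congrArg _ (Fin.ext (by omega))
    · simp only [pt, Prod.mk.injEq] at h
      have := h.2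
      norm_cast at this
      omega
    · simp only [pt, Prod.mk.injEq] at h
      have := h.2
      norm_cast at this
      omega
    · simp [pt] at h; exact congrArg _ (Fin.ext (by omega))
  · intro u v
    simp only [open_cast]
    rcases u with i | i <;> rcases v with j | j
    · constructor
      · intro h
        refine ⟨fun h' => (pathJoin m).loopless.irrefl _ (h' ▸ h), ?_⟩
        rintro (k | k)
        · simp only [pt]
          have h : (i : ℕ) + 1 = j ∨ (j : ℕ) + 1 = i := h
          omega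
        · simp only [pt]
          omega
      · rintro ⟨hne, h⟩
        change (i : ℕ) + 1 = j ∨ (j : ℕ) + 1 = i
        by_contra hcon
        have hne' : (i : ℕ) ≠ j := fun h => hne (congrArg _ (Fin.ext h))
        rcases lt_or_gt_of_ne hne' with h1 | h1
        · have := h (.inl ⟨i + 1, by omega⟩)
          simp only [pt] at this
          omega
        · have := h (.inl ⟨j + 1, by omega⟩)
          simp only [pt] at this
          omega
    · refine ⟨fun _ => ⟨by simp, ?_⟩, fun _ => trivial⟩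
      rintro (k | k)
      · simp only [pt]; omega
      · simp only [pt]; omega
    · refine ⟨fun _ => ⟨by simp, ?_⟩, fun _ => trivial⟩
      rintro (k | k)
      · simp only [pt]; omega
      · simp only [pt]; omega
    · constructor
      · intro h
        refine ⟨fun h' => (pathJoin m).loopless.irrefl _ (h' ▸ h), ?_⟩
        rintro (k | k)
        · simp only [pt]
          omega
        · simp only [pt]
          have h : (i : ℕ) + 1 = j ∨ (j : ℕ) + 1 = i := h
          omega
      · rintro ⟨hne, h⟩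
        change (i : ℕ) + 1 = j ∨ (j : ℕ) + 1 = i
        by_contra hcon
        have hne' : (i : ℕ) ≠ j := fun h => hne (congrArg _ (Fin.ext h))
        rcases lt_or_gt_of_ne hne' with h1 | h1
        · have := h (.inr ⟨i + 1, by omega⟩)
          simp only [pt] at this
          omega
        · have := h (.inr ⟨j + 1, by omega⟩)
          simp only [pt] at this
          omega

/-! ### It is a corner rectangle visibility graph -/

/-- integer data of a corner rectangle with the eye on the right side -/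
structure IRect where
  x0 : ℤ
  x1 : ℤ
  y0 : ℤ
  y1 : ℤ
  top : Bool
  hx : x0 < x1
  hy : y0 < y1

def IRect.real (A : IRect) : Rect :=
  ⟨A.x0, A.x1, A.y0, A.y1, by exact_mod_cast A.hx, by exact_mod_cast A.hy⟩

def IRect.eyeY (A : IRect) : ℤ := if A.top then A.y1 else A.y0

lemma IRect.corner (A : IRect) : A.real.corner (true, A.top) = ((A.x1 : ℝ), (A.eyeY : ℝ)) := by
  unfold Rect.corner IRect.real IRect.eyeY
  cases A.top <;> simp

lemma mem_frontier_of_left (A : Rect) {z : ℝ × ℝ} (h : z ∈ A.set) (hx : z.1 = A.x0) :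
    z ∈ frontier A.set := by
  have h1 : A.set = Icc A.x0 A.x1 ×ˢ Icc A.y0 A.y1 := rfl
  rw [h1, frontier_prod_eq, frontier_Icc A.hx.le, closure_Icc, closure_Icc]
  right
  exact ⟨by rw [hx]; simp, h.2⟩

lemma mem_of_frontier (A : Rect) {z : ℝ × ℝ} (h : z ∈ frontier A.set) : z ∈ A.set := by
  have h1 : A.set = Icc A.x0 A.x1 ×ˢ Icc A.y0 A.y1 := rfl
  have h2 : IsClosed A.set := by rw [h1]; exact isClosed_Icc.prod isClosed_Icc
  exact h2.frontier_subset h

/-- sufficient condition for seeing -/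
lemma sees_of {R : V → IRect} {u v : V} (b : ℤ) (h1 : (R u).x1 < (R v).x0)
    (h2 : if (R u).top then (R u).y1 < b else b < (R u).y0)
    (h3 : (R v).y0 ≤ b ∧ b ≤ (R v).y1)
    (h4 : ∀ w, w ≠ u → w ≠ v → (R w).x1 < (R u).x1 ∨ (R v).x0 < (R w).x0 ∨
      (R w).y1 < min (R u).eyeY b ∨ max (R u).eyeY b < (R w).y0) :
    Sees (fun w => (R w).real) (fun w => (true, (R w).top)) u v := by
  have h1' : ((R u).x1 : ℝ) < (R v).x0 := by exact_mod_cast h1
  refine ⟨(((R v).x0 : ℝ), (b : ℝ)), ?_, ?_, ?_, ?_, ?_, ?_⟩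
  · rw [IRect.corner]; exact h1'.ne'
  · rw [IRect.corner]
    unfold IRect.eyeY
    split_ifs at h2 with h
    · simp only [h, if_true]
      exact_mod_cast h2.ne'
    · simp only [h]
      exact_mod_cast h2.ne
  · apply mem_frontier_of_left
    · refine ⟨⟨le_rfl, (R v).real.hx.le⟩, ?_, ?_⟩
      · simp only [IRect.real]; exact_mod_cast h3.1
      · simp only [IRect.real]; exact_mod_cast h3.2
    · rfl
  · rw [IRect.corner]
    ext ⟨z1, z2⟩
    rw [Set.mem_inter_iff, mem_uIcc_iff, Set.mem_singleton_iff, Prod.mk.injEq]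
    simp only [Rect.set, IRect.real]
    constructor
    · rintro ⟨⟨⟨k1, k2⟩, k3, k4⟩, ⟨k5, k6⟩, k7, k8⟩
      simp only at k1 k2 k3 k4 k5 k6 k7 k8
      rw [min_eq_left h1'.le] at k1
      refine ⟨le_antisymm k6 k1, ?_⟩
      unfold IRect.eyeY at k3 k4 ⊢
      split_ifs at h2 with h
      · simp only [h, if_true] at k3 k4 ⊢
        have : ((R u).y1 : ℝ) < b := by exact_mod_cast h2
        rw [min_eq_left this.le] at k3
        exact le_antisymm k8 k3
      · simp only [h, Bool.false_eq_true, if_false] at k3 k4 ⊢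
        have : (b : ℝ) < (R u).y0 := by exact_mod_cast h2
        rw [max_eq_left this.le] at k4
        exact le_antisymm k4 k7
    · rintro ⟨rfl, rfl⟩
      have hxx : ((R u).x0 : ℝ) ≤ (R u).x1 := by exact_mod_cast (R u).hx.le
      have hyy : ((R u).y0 : ℝ) ≤ (R u).y1 := by exact_mod_cast (R u).hy.le
      refine ⟨⟨⟨min_le_left _ _, le_max_left _ _⟩, min_le_left _ _, le_max_left _ _⟩,
        ⟨hxx, le_rfl⟩, ?_, ?_⟩
      · unfold IRect.eyeY; split_ifs
        · exact hyy
        · exact le_rfl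
      · unfold IRect.eyeY; split_ifs
        · exact le_rfl
        · exact hyy
  · rw [IRect.corner]
    rintro ⟨z1, z2⟩ ⟨k1, k2⟩
    apply mem_frontier_of_left _ k2
    rw [mem_uIcc_iff] at k1
    have k3 := k1.1.2
    simp only at k3
    rw [max_eq_right h1'.le] at k3
    exact le_antisymm k3 k2.1.1
  · intro w hwu hwv
    rw [IRect.corner, Set.disjoint_left]
    rintro ⟨z1, z2⟩ k1 k2
    rw [mem_uIcc_iff] at k1
    obtain ⟨⟨k3, k4⟩, k5, k6⟩ := k1
    obtain ⟨⟨k7, k8⟩, k9, k10⟩ := k2
    simp only [IRect.real] at k3 k4 k5 k6 k7 k8 k9 k10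
    rw [min_eq_left h1'.le] at k3
    rw [max_eq_right h1'.le] at k4
    rcases h4 w hwu hwv with h | h | h | h
    · have : ((R w).x1 : ℝ) < (R u).x1 := by exact_mod_cast h
      linarith
    · have : ((R v).x0 : ℝ) < (R w).x0 := by exact_mod_cast h
      linarith
    · have : ((R w).y1 : ℝ) < min ((R u).eyeY : ℝ) (b : ℝ) := by exact_mod_cast h
      linarith
    · have : max ((R u).eyeY : ℝ) (b : ℝ) < (R w).y0 := by exact_mod_cast h
      linarith

/-- necessary conditions for seeing -/
lemma of_sees {R : V → IRect} {u v : V} (h : Sees (fun w => (R w).real)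
      (fun w => (true, (R w).top)) u v) :
    (R u).x1 < (R v).x1 ∧ (if (R u).top then (R u).y1 < (R v).y1 else (R v).y0 < (R u).y0) ∧
    ∀ w, w ≠ u → w ≠ v → ∀ c d : ℤ, (R w).x0 ≤ c → c ≤ (R w).x1 → (R w).y0 ≤ d → d ≤ (R w).y1 →
      (R u).x1 ≤ c → c ≤ (R v).x0 →
      ¬ (if (R u).top then (R u).y1 ≤ d ∧ (d ≤ (R v).y0 ∨ d = (R u).y1)
        else d ≤ (R u).y0 ∧ ((R v).y1 ≤ d ∨ d = (R u).y0)) := by
  obtain ⟨⟨q1, q2⟩, h1, h2, h3, h4, h5, h6⟩ := h
  rw [IRect.corner] at h1 h2 h4 h5
  simp only at h1 h2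
  have hxx : ((R u).x0 : ℝ) < (R u).x1 := by exact_mod_cast (R u).hx
  have hyy : ((R u).y0 : ℝ) < (R u).y1 := by exact_mod_cast (R u).hy
  have hq := mem_of_frontier _ h3
  obtain ⟨⟨g1, g2⟩, g3, g4⟩ := hq
  simp only [IRect.real] at g1 g2 g3 g4
  -- `q` is to the right of the eye
  have key : ∀ z1 z2 : ℝ, (z1, z2) ∈ uIcc (((R u).x1 : ℝ), ((R u).eyeY : ℝ)) (q1, q2) →
      (z1, z2) ∈ (R u).real.set → z1 = (R u).x1 ∧ z2 = (R u).eyeY := by
    intro z1 z2 k1 k2
    have : (z1, z2) ∈ ({(((R u).x1 : ℝ), ((R u).eyeY : ℝ))} : Set (ℝ × ℝ)) := by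
      rw [← h4]; exact ⟨k1, k2⟩
    rw [Set.mem_singleton_iff, Prod.mk.injEq] at this
    exact this
  have eyeY1 : ((R u).y0 : ℝ) ≤ (R u).eyeY := by
    unfold IRect.eyeY; split_ifs
    · exact hyy.le
    · exact le_rfl
  have eyeY2 : ((R u).eyeY : ℝ) ≤ (R u).y1 := by
    unfold IRect.eyeY; split_ifs
    · exact le_rfl
    · exact hyy.le
  have hq1 : ((R u).x1 : ℝ) < q1 := by
    rcases lt_or_gt_of_ne h1 with h | h
    · exfalso
      have := key (max q1 (R u).x0) (R u).eyeY (by
        rw [mem_uIcc_iff]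
        simp only
        refine ⟨⟨(min_le_right _ _).trans (le_max_left _ _), ?_⟩, min_le_left _ _,
          le_max_left _ _⟩
        exact (max_le h.le hxx.le).trans (le_max_left _ _))
        ⟨⟨le_max_right _ _, max_le h.le hxx.le⟩, eyeY1, eyeY2⟩
      rcases max_choice q1 ((R u).x0 : ℝ) with h' | h'
      · rw [h'] at this; linarith
      · rw [h'] at this; linarith
    · exact h
  have hq2 : if (R u).top then ((R u).y1 : ℝ) < q2 else q2 < (R u).y0 := by
    split_ifs with ht
    · have he : (R u).eyeY = (R u).y1 := by simp [IRect.eyeY, ht]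
      rw [he] at h2 key
      rcases lt_or_gt_of_ne h2 with h | h
      · exfalso
        have := key (R u).x1 (max q2 (R u).y0) (by
          rw [mem_uIcc_iff]
          simp only
          refine ⟨⟨min_le_left _ _, le_max_left _ _⟩, (min_le_right _ _).trans (le_max_left _ _), ?_⟩
          exact (max_le h.le hyy.le).trans (le_max_left _ _))
          ⟨⟨hxx.le, le_rfl⟩, le_max_right _ _, max_le h.le hyy.le⟩
        rcases max_choice q2 ((R u).y0 : ℝ) with h' | h'
        · rw [h'] at this; linarith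
        · rw [h'] at this; linarith
      · exact h
    · have he : (R u).eyeY = (R u).y0 := by simp [IRect.eyeY, ht]
      rw [he] at h2 key
      rcases lt_or_gt_of_ne h2 with h | h
      · exact h
      · exfalso
        have := key (R u).x1 (min q2 (R u).y1) (by
          rw [mem_uIcc_iff]
          simp only
          refine ⟨⟨min_le_left _ _, le_max_left _ _⟩, ?_, (min_le_left _ _).trans (le_max_right _ _)⟩
          exact (min_le_left _ _).trans (le_min h.le hyy.le))
          ⟨⟨hxx.le, le_rfl⟩, le_min h.le hyy.le, min_le_right _ _⟩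
        rcases min_choice q2 ((R u).y1 : ℝ) with h' | h'
        · rw [h'] at this; linarith
        · rw [h'] at this; linarith
  refine ⟨by exact_mod_cast hq1.trans_le g2, ?_, ?_⟩
  · split_ifs at hq2 ⊢
    · exact_mod_cast hq2.trans_le g4
    · exact_mod_cast g3.trans_lt hq2
  · intro w hwu hwv c d k1 k2 k3 k4 k5 k6 k7
    have m1 : (((c : ℝ), (d : ℝ)) : ℝ × ℝ) ∈ (R w).real.set := by
      have e1 : ((R w).x0 : ℝ) ≤ c := by exact_mod_cast k1
      have e2 : (c : ℝ) ≤ (R w).x1 := by exact_mod_cast k2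
      have e3 : ((R w).y0 : ℝ) ≤ d := by exact_mod_cast k3
      have e4 : (d : ℝ) ≤ (R w).y1 := by exact_mod_cast k4
      exact ⟨⟨e1, e2⟩, e3, e4⟩
    have c1 : ((R u).x1 : ℝ) ≤ c := by exact_mod_cast k5
    have c2 : (c : ℝ) ≤ q1 := le_trans (by exact_mod_cast k6) g1
    have h7 := h6 w hwu hwv
    rw [IRect.corner] at h7
    refine Set.disjoint_left.1 h7 ?_ m1
    rw [mem_uIcc_iff]
    simp only
    refine ⟨⟨(min_le_left _ _).trans c1, c2.trans (le_max_right _ _)⟩, ?_⟩
    split_ifs at hq2 k7 with ht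
    · have he : (R u).eyeY = (R u).y1 := by simp [IRect.eyeY, ht]
      rw [he]
      have d1 : ((R u).y1 : ℝ) ≤ d := by exact_mod_cast k7.1
      refine ⟨(min_le_left _ _).trans d1, ?_⟩
      rcases k7.2 with k8 | k8
      · exact le_trans (le_trans (by exact_mod_cast k8) g3) (le_max_right _ _)
      · rw [k8]; exact le_max_left _ _
    · have he : (R u).eyeY = (R u).y0 := by simp [IRect.eyeY, ht]
      rw [he]
      have d1 : (d : ℝ) ≤ (R u).y0 := by exact_mod_cast k7.1
      refine ⟨?_, d1.trans (le_max_left _ _)⟩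
      rcases k7.2 with k8 | k8
      · exact le_trans (min_le_right _ _) (le_trans g4 (by exact_mod_cast k8))
      · rw [k8]; exact min_le_left _ _

/-- the representation -/
def rep (m : ℕ) : Fin m ⊕ Fin m → IRect
  | .inl i =>
    { x0 := 4 * i
      x1 := 4 * i + 2
      y0 := if (i : ℕ) % 2 = 0 then - 2 * m - 4 - 2 * i else 2 * m + 2 + 2 * i
      y1 := if (i : ℕ) % 2 = 0 then - 2 * m - 2 - 2 * i else 2 * m + 4 + 2 * i
      top := decide ((i : ℕ) % 2 = 0)
      hx := by omega
      hy := by split_ifs <;> omega }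
  | .inr j =>
    { x0 := 4 * m + 4 * j
      x1 := 4 * m + 4 * j + 2
      y0 := - 2 - 2 * j
      y1 := 2 + 2 * j
      top := false
      hx := by omega
      hy := by omega }

lemma sees_inl_inl (m : ℕ) (i j : Fin m) : Sees (fun w => (rep m w).real)
    (fun w => (true, (rep m w).top)) (.inl i) (.inl j) ↔ (i : ℕ) + 1 = j := by
  have hi := i.2
  have hj := j.2
  constructor
  · intro h
    obtain ⟨h1, h2, h3⟩ := of_sees h
    by_contra hne
    by_cases hpar : (i : ℕ) % 2 = 0
    · by_cases hpar' : (j : ℕ) % 2 = 0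
      · simp only [rep, hpar, hpar', decide_true, if_true] at h1 h2
        omega
      · have hij : (i : ℕ) + 1 < j := by simp only [rep] at h1; omega
        have hpar'' : ¬ ((i : ℕ) + 1) % 2 = 0 := by omega
        refine h3 (.inl ⟨i + 1, by omega⟩) (by simp [Fin.ext_iff]) (by simp [Fin.ext_iff]; omega)
          (4 * (i + 1)) (2 * m + 2 + 2 * (i + 1)) ?_ ?_ ?_ ?_ ?_ ?_ ?_ <;>
          simp only [rep, hpar, hpar', hpar'', decide_true, if_true, if_false] <;> omega
    · by_cases hpar' : (j : ℕ) % 2 = 0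
      · have hij : (i : ℕ) + 1 < j := by simp only [rep] at h1; omega
        have hpar'' : ((i : ℕ) + 1) % 2 = 0 := by omega
        refine h3 (.inl ⟨i + 1, by omega⟩) (by simp [Fin.ext_iff]) (by simp [Fin.ext_iff]; omega)
          (4 * (i + 1)) (- 2 * m - 2 - 2 * (i + 1)) ?_ ?_ ?_ ?_ ?_ ?_ ?_ <;>
          simp only [rep, hpar, hpar', hpar'', decide_false, Bool.false_eq_true, if_true,
            if_false] <;> omega
      · simp only [rep, hpar, hpar', decide_false, Bool.false_eq_true, if_false] at h1 h2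
        omega
  · intro h
    by_cases hpar : (i : ℕ) % 2 = 0
    · have hpar' : ¬ (j : ℕ) % 2 = 0 := by omega
      refine sees_of (2 * m + 2 + 2 * j) ?_ ?_ ?_ ?_
      · simp only [rep]; omega
      · simp only [rep, hpar, decide_true, if_true]; omega
      · simp only [rep, hpar', if_false]; omega
      · rintro (k | k) h1 h2
        · have h3 : (k : ℕ) ≠ i := fun h => h1 (congrArg _ (Fin.ext h))
          have h4 : (k : ℕ) ≠ j := fun h => h2 (congrArg _ (Fin.ext h))
          simp only [rep]; omega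
        · simp only [rep]; omega
    · have hpar' : (j : ℕ) % 2 = 0 := by omega
      refine sees_of (- 2 * m - 2 - 2 * j) ?_ ?_ ?_ ?_
      · simp only [rep]; omega
      · simp only [rep, hpar, decide_false, Bool.false_eq_true, if_false]; omega
      · simp only [rep, hpar', if_true]; omega
      · rintro (k | k) h1 h2
        · have h3 : (k : ℕ) ≠ i := fun h => h1 (congrArg _ (Fin.ext h))
          have h4 : (k : ℕ) ≠ j := fun h => h2 (congrArg _ (Fin.ext h))
          simp only [rep]; omega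
        · simp only [rep]; omega

lemma sees_inl_inr (m : ℕ) (i j : Fin m) : Sees (fun w => (rep m w).real)
    (fun w => (true, (rep m w).top)) (.inl i) (.inr j) := by
  have hi := i.2
  have hj := j.2
  by_cases hpar : (i : ℕ) % 2 = 0
  · refine sees_of (- 2 - 2 * j) ?_ ?_ ?_ ?_
    · simp only [rep]; omega
    · simp only [rep, hpar, decide_true, if_true]; omega
    · simp only [rep]; omega
    · rintro (k | k) h1 h2
      · have h3 : (k : ℕ) ≠ i := fun h => h1 (congrArg _ (Fin.ext h))
        simp only [rep, IRect.eyeY, hpar, decide_true, if_true]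
        split_ifs <;> omega
      · have h3 : (k : ℕ) ≠ j := fun h => h2 (congrArg _ (Fin.ext h))
        simp only [rep, IRect.eyeY, hpar, decide_true, if_true]
        omega
  · refine sees_of (2 + 2 * j) ?_ ?_ ?_ ?_
    · simp only [rep]; omega
    · simp only [rep, hpar, decide_false, Bool.false_eq_true, if_false]; omega
    · simp only [rep]; omega
    · rintro (k | k) h1 h2
      · have h3 : (k : ℕ) ≠ i := fun h => h1 (congrArg _ (Fin.ext h))
        simp only [rep, IRect.eyeY, hpar, decide_false, Bool.false_eq_true, if_false]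
        split_ifs <;> omega
      · have h3 : (k : ℕ) ≠ j := fun h => h2 (congrArg _ (Fin.ext h))
        simp only [rep, IRect.eyeY, hpar, decide_false, Bool.false_eq_true, if_false]
        omega

lemma sees_inr_inr (m : ℕ) (i j : Fin m) : Sees (fun w => (rep m w).real)
    (fun w => (true, (rep m w).top)) (.inr i) (.inr j) ↔ (i : ℕ) + 1 = j := by
  have hi := i.2
  have hj := j.2
  constructor
  · intro h
    obtain ⟨h1, h2, h3⟩ := of_sees h
    by_contra hne
    have hij : (i : ℕ) + 1 < j := by simp only [rep] at h1; omega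
    refine h3 (.inr ⟨i + 1, by omega⟩) (by simp [Fin.ext_iff]) (by simp [Fin.ext_iff]; omega)
      (4 * m + 4 * (i + 1)) (- 2 - 2 * i) ?_ ?_ ?_ ?_ ?_ ?_ ?_
    · simp only [rep]; omega
    · simp only [rep]; omega
    · simp only [rep]; omega
    · simp only [rep]; omega
    · simp only [rep]; omega
    · simp only [rep]; omega
    · simp only [rep, Bool.false_eq_true, if_false]
      exact ⟨le_rfl, Or.inr trivial⟩
  · intro h
    refine sees_of (- 3 - 2 * i) ?_ ?_ ?_ ?_
    · simp only [rep]; omega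
    · simp only [rep, Bool.false_eq_true, if_false]; omega
    · simp only [rep]; omega
    · rintro (k | k) h1 h2
      · simp only [rep]; omega
      · have h3 : (k : ℕ) ≠ i := fun h => h1 (congrArg _ (Fin.ext h))
        have h4 : (k : ℕ) ≠ j := fun h => h2 (congrArg _ (Fin.ext h))
        simp only [rep]; omega

lemma pathJoin_crvg (m : ℕ) : IsCRVG (pathJoin m) := by
  refine ⟨fun w => (rep m w).real, fun w => (true, (rep m w).top), ?_, ?_⟩
  · intro u v huv
    rw [Set.disjoint_left]
    rintro ⟨x, y⟩ ⟨⟨h1, h2⟩, _⟩ ⟨⟨h3, h4⟩, _⟩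
    simp only [IRect.real] at h1 h2 h3 h4
    have h5 : (rep m u).x0 ≤ (rep m v).x1 := by
      have : (((rep m u).x0 : ℤ) : ℝ) ≤ (rep m v).x1 := h1.trans h4
      exact_mod_cast this
    have h6 : (rep m v).x0 ≤ (rep m u).x1 := by
      have : (((rep m v).x0 : ℤ) : ℝ) ≤ (rep m u).x1 := h3.trans h2
      exact_mod_cast this
    rcases u with i | i <;> rcases v with j | j <;> simp only [rep] at h5 h6
    · exact huv (congrArg _ (Fin.ext (by omega)))
    · have := i.2; omega
    · have := j.2; omega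
    · exact huv (congrArg _ (Fin.ext (by omega)))
  · rintro (i | i) (j | j)
    · rw [sees_inl_inl, sees_inl_inl]
      change ((i : ℕ) + 1 = j ∨ (j : ℕ) + 1 = i) ↔ _
      constructor
      · intro h
        refine ⟨?_, h⟩
        rintro h'
        rw [Sum.inl.injEq] at h'
        subst h'
        omega
      · exact fun h => h.2
    · exact ⟨fun _ => ⟨by simp, Or.inl (sees_inl_inr m i j)⟩, fun _ => trivial⟩
    · exact ⟨fun _ => ⟨by simp, Or.inr (sees_inl_inr m j i)⟩, fun _ => trivial⟩
    · rw [sees_inr_inr, sees_inr_inr]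
      change ((i : ℕ) + 1 = j ∨ (j : ℕ) + 1 = i) ↔ _
      constructor
      · intro h
        refine ⟨?_, h⟩
        rintro h'
        rw [Sum.inr.injEq] at h'
        subst h'
        omega
      · exact fun h => h.2

/-- There is a graph that is an open rectangle-of-influence graph and a corner rectangle
visibility graph, but not a rectangle visibility graph. -/
theorem result : ∃ (V : Type) (_ : Fintype V) (G : SimpleGraph V),
    IsOpenRIG G ∧ IsCRVG G ∧ ¬ IsRVG G :=
  ⟨_, inferInstance, pathJoin 11, pathJoin_rig 11, pathJoin_crvg 11, pathJoin_not_rvg⟩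

end Pool.Agent.Results.MP_78e958_co.NotRVG
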